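import Mathlib

set_option autoImplicit false

namespace Pool.Agent.R842.Orb

universe u

/-! ### Cones -/

/-- `P` is the set of elements that are positive modulo the subgroup `K`. -/
structure RelCone {G : Type u} [Group G] (K : Subgroup G) (P : Set G) : Prop where
  mul : ∀ a ∈ P, ∀ b ∈ P, a * b ∈ P
  conj : ∀ a ∈ P, ∀ g : G, g * a * g⁻¹ ∈ P
  tri : ∀ a : G, a ∈ K ∨ a ∈ P ∨ a⁻¹ ∈ P
  asym : ∀ a ∈ P, a⁻¹ ∉ P
  nmem : ∀ a ∈ P, a ∉ K

/-- Torsion-free abelian groups have positive cones. -/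
theorem tf_cone (M : Type u) [CommGroup M]
    (htf : ∀ x : M, ∀ n : ℕ, n ≠ 0 → x ^ n = 1 → x = 1) :
    ∃ P : Set M, (∀ a ∈ P, ∀ b ∈ P, a * b ∈ P) ∧ (1 : M) ∉ P ∧
      ∀ a, a ≠ 1 → a ∈ P ∨ a⁻¹ ∈ P := by
  obtain ⟨P, hP⟩ := zorn_subset
    {P : Set M | (∀ a ∈ P, ∀ b ∈ P, a * b ∈ P) ∧ (1 : M) ∉ P} (by
      intro c hc hch
      refine ⟨⋃₀ c, ⟨?_, ?_⟩, fun s hs => Set.subset_sUnion_of_mem hs⟩
      · rintro a ⟨s, hs, has⟩ b ⟨t, ht, hbt⟩
        rcases hch.total hs ht with h | h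
        · exact ⟨t, ht, (hc ht).1 a (h has) b hbt⟩
        · exact ⟨s, hs, (hc hs).1 a has b (h hbt)⟩
      · rintro ⟨s, hs, h1⟩
        exact (hc hs).2 h1)
  have hmul := hP.prop.1
  have h1 := hP.prop.2
  have hpow : ∀ a ∈ P, ∀ n : ℕ, a ^ (n + 1) ∈ P := by
    intro a ha n
    induction n with
    | zero => simpa using ha
    | succ n ih => rw [pow_succ]; exact hmul _ ih _ ha
  have key : ∀ x : M, x ≠ 1 → x ∉ P → ∃ n : ℕ, (x⁻¹) ^ (n + 1) ∈ P := by
    intro x hx hxP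
    by_contra hcon
    push Not at hcon
    have hQ : (P ∪ {y | ∃ n : ℕ, ∃ p, (p ∈ P ∨ p = 1) ∧ y = x ^ (n + 1) * p}) ∈
        {P : Set M | (∀ a ∈ P, ∀ b ∈ P, a * b ∈ P) ∧ (1 : M) ∉ P} := by
      refine ⟨?_, ?_⟩
      · rintro a (ha | ⟨n, p, hp, rfl⟩) b (hb | ⟨m, q, hq, rfl⟩)
        · exact Or.inl (hmul a ha b hb)
        · right
          refine ⟨m, a * q, ?_, by simp only [mul_left_comm]⟩
          rcases hq with hq | rfl
          · exact Or.inl (hmul a ha q hq)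
          · left; simpa using ha
        · right
          refine ⟨n, p * b, ?_, by simp only [mul_assoc]⟩
          rcases hp with hp | rfl
          · exact Or.inl (hmul p hp b hb)
          · left; simpa using hb
        · right
          refine ⟨n + m + 1, p * q, ?_, ?_⟩
          · rcases hp with hp | rfl
            · rcases hq with hq | rfl
              · exact Or.inl (hmul p hp q hq)
              · left; simpa using hp
            · simpa using hq
          · rw [show n + m + 1 + 1 = (n + 1) + (m + 1) by ring, pow_add x (n + 1) (m + 1),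
              mul_mul_mul_comm]
      · rintro (h | ⟨n, p, hp, he⟩)
        · exact h1 h
        · rcases hp with hp | rfl
          · apply hcon n
            have : x⁻¹ ^ (n + 1) = p := by
              rw [inv_pow]
              exact inv_eq_of_mul_eq_one_right he.symm
            rw [this]; exact hp
          · rw [mul_one] at he
            exact hx (htf x (n + 1) (by omega) he.symm)
    have := hP.eq_of_subset hQ (Set.subset_union_left)
    apply hxP
    rw [this]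
    right
    exact ⟨0, 1, Or.inr rfl, by simp⟩
  refine ⟨P, hmul, h1, ?_⟩
  intro a ha
  by_contra hcon
  push Not at hcon
  obtain ⟨n, hn⟩ := key a ha hcon.1
  obtain ⟨m, hm⟩ := key a⁻¹ (by simpa using ha) hcon.2
  rw [inv_inv] at hm
  have h2 := hpow _ hn m
  have h3 := hpow _ hm n
  have h4 := hmul _ h2 _ h3
  apply h1
  have : (a⁻¹ ^ (n + 1)) ^ (m + 1) * (a ^ (m + 1)) ^ (n + 1) = 1 := by
    rw [← pow_mul, ← pow_mul, mul_comm (m + 1) (n + 1), inv_pow, inv_mul_cancel]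
  rwa [this] at h4

/-- Positive cones on torsion-free abelian sections. -/
theorem tf_rel {G : Type u} [Group G] (V W : Subgroup G) (hWV : W ≤ V)
    (hcomm : ∀ a ∈ V, ∀ b ∈ V, a * b * a⁻¹ * b⁻¹ ∈ W)
    (hiso : ∀ a ∈ V, ∀ n : ℕ, n ≠ 0 → a ^ n ∈ W → a ∈ W) :
    ∃ Q : Set G, (∀ a ∈ Q, a ∈ V) ∧ (∀ a ∈ Q, ∀ b ∈ Q, a * b ∈ Q) ∧ (∀ a ∈ Q, a ∉ W) ∧
      (∀ a ∈ V, a ∉ W → a ∈ Q ∨ a⁻¹ ∈ Q) ∧ (∀ a ∈ Q, ∀ w ∈ W, a * w ∈ Q ∧ w * a ∈ Q) := by
  have hn : (W.subgroupOf V).Normal := by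
    constructor
    rintro ⟨n, hn⟩ hnW ⟨g, hg⟩
    rw [Subgroup.mem_subgroupOf] at hnW ⊢
    simp only [Subgroup.coe_mul, Subgroup.coe_inv] at hnW ⊢
    have := W.mul_mem (hcomm g hg n hn) hnW
    rwa [inv_mul_cancel_right] at this
  let _ : CommGroup (V ⧸ W.subgroupOf V) :=
    { (inferInstance : Group (V ⧸ W.subgroupOf V)) with
      mul_comm := by
        intro a b
        induction a using QuotientGroup.induction_on with | H a => ?_
        induction b using QuotientGroup.induction_on with | H b => ?_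
        rw [← QuotientGroup.mk_mul, ← QuotientGroup.mk_mul, QuotientGroup.eq,
          Subgroup.mem_subgroupOf]
        have := hcomm (b : G)⁻¹ (V.inv_mem b.2) (a : G)⁻¹ (V.inv_mem a.2)
        simpa [mul_assoc] using this }
  have hmk : ∀ a : V, (QuotientGroup.mk a : V ⧸ W.subgroupOf V) = 1 ↔ (a : G) ∈ W := by
    intro a
    rw [QuotientGroup.eq_one_iff, Subgroup.mem_subgroupOf]
  obtain ⟨P, hmul, h1, htri⟩ := tf_cone (V ⧸ W.subgroupOf V) (by
    intro x n hn hx
    induction x using QuotientGroup.induction_on with | H a => ?_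
    rw [← QuotientGroup.mk_pow, hmk] at hx
    rw [hmk]
    exact hiso a a.2 n hn (by simpa using hx))
  refine ⟨{a | ∃ h : a ∈ V, (QuotientGroup.mk (⟨a, h⟩ : V) : V ⧸ W.subgroupOf V) ∈ P},
    ?_, ?_, ?_, ?_, ?_⟩
  · rintro a ⟨h, -⟩; exact h
  · rintro a ⟨ha, ha'⟩ b ⟨hb, hb'⟩
    refine ⟨V.mul_mem ha hb, ?_⟩
    have := hmul _ ha' _ hb'
    rwa [← QuotientGroup.mk_mul] at this
  · rintro a ⟨ha, ha'⟩ haW
    rw [(hmk ⟨a, ha⟩).mpr haW] at ha'
    exact h1 ha'
  · intro a ha haW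
    rcases htri (QuotientGroup.mk (⟨a, ha⟩ : V)) (fun h => haW ((hmk _).mp h)) with h | h
    · left; exact ⟨ha, h⟩
    · right
      refine ⟨V.inv_mem ha, ?_⟩
      rwa [← QuotientGroup.mk_inv] at h
  · rintro a ⟨ha, ha'⟩ w hw
    refine ⟨⟨V.mul_mem ha (hWV hw), ?_⟩, ⟨V.mul_mem (hWV hw) ha, ?_⟩⟩
    · have : (QuotientGroup.mk (⟨a * w, V.mul_mem ha (hWV hw)⟩ : V) : V ⧸ W.subgroupOf V) =
        QuotientGroup.mk (⟨a, ha⟩ : V) * QuotientGroup.mk (⟨w, hWV hw⟩ : V) := by
        rw [← QuotientGroup.mk_mul]; rfl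
      rw [this, (hmk ⟨w, hWV hw⟩).mpr hw, mul_one]
      exact ha'
    · have : (QuotientGroup.mk (⟨w * a, V.mul_mem (hWV hw) ha⟩ : V) : V ⧸ W.subgroupOf V) =
        QuotientGroup.mk (⟨w, hWV hw⟩ : V) * QuotientGroup.mk (⟨a, ha⟩ : V) := by
        rw [← QuotientGroup.mk_mul]; rfl
      rw [this, (hmk ⟨w, hWV hw⟩).mpr hw, one_mul]
      exact ha'

/-- Isolated subgroups containing the commutator subgroup have orderable quotient. -/
theorem cone_of_isolated {G : Type u} [Group G] (N : Subgroup G)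
    (hcomm : ∀ a b : G, a * b * a⁻¹ * b⁻¹ ∈ N)
    (hiso : ∀ a : G, ∀ n : ℕ, n ≠ 0 → a ^ n ∈ N → a ∈ N) : ∃ P, RelCone N P := by
  obtain ⟨Q, -, h2, h3, h4, h5⟩ := tf_rel (⊤ : Subgroup G) N le_top (fun a _ b _ => hcomm a b)
    (fun a _ n hn h => hiso a n hn h)
  refine ⟨Q, h2, ?_, ?_, ?_, h3⟩
  · intro a ha g
    have := (h5 a ha _ (hcomm g a)).2
    rwa [inv_mul_cancel_right] at this
  · intro a
    by_cases ha : a ∈ N
    · exact Or.inl ha
    · exact Or.inr (h4 a (Subgroup.mem_top a) ha)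
  · intro a ha ha'
    have := h2 a ha _ ha'
    rw [mul_inv_cancel] at this
    exact h3 1 this N.one_mem

lemma RelCone.comap {G : Type u} [Group G] {G' : Type u} [Group G'] (f : G →* G')
    {N : Subgroup G'} {P : Set G'}
    (hP : RelCone N P) : RelCone (N.comap f) (f ⁻¹' P) where
  mul a ha b hb := by
    simp only [Set.mem_preimage, map_mul] at *
    exact hP.mul _ ha _ hb
  conj a ha g := by
    simp only [Set.mem_preimage, map_mul, map_inv] at *
    exact hP.conj _ ha _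
  tri a := by
    simp only [Set.mem_preimage, map_inv, Subgroup.mem_comap]
    exact hP.tri _
  asym a ha := by
    simp only [Set.mem_preimage, map_inv] at *
    exact hP.asym _ ha
  nmem a ha := by
    simp only [Set.mem_preimage, Subgroup.mem_comap] at *
    exact hP.nmem _ ha

lemma RelCone.absorb {G : Type u} [Group G] {K : Subgroup G} {P : Set G} (hP : RelCone K P)
    {a k : G} (ha : a ∈ P) (hk : k ∈ K) : a * k ∈ P := by
  rcases hP.tri (a * k) with h | h | h
  · exfalso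
    apply hP.nmem a ha
    have := K.mul_mem h (K.inv_mem hk)
    rwa [mul_inv_cancel_right] at this
  · exact h
  · exfalso
    have := hP.mul _ h _ ha
    rw [mul_inv_rev, inv_mul_cancel_right] at this
    exact hP.nmem _ this (K.inv_mem hk)

lemma RelCone.quotient {G : Type u} [Group G] {K : Subgroup G} [K.Normal] {P : Set G}
    (hP : RelCone K P) :
    RelCone (⊥ : Subgroup (G ⧸ K)) ((QuotientGroup.mk' K) '' P) where
  mul := by
    rintro _ ⟨a, ha, rfl⟩ _ ⟨b, hb, rfl⟩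
    exact ⟨a * b, hP.mul _ ha _ hb, map_mul _ _ _⟩
  conj := by
    rintro _ ⟨a, ha, rfl⟩ g
    obtain ⟨g, rfl⟩ := QuotientGroup.mk'_surjective K g
    exact ⟨g * a * g⁻¹, hP.conj _ ha _, by simp⟩
  tri := by
    intro x
    obtain ⟨x, rfl⟩ := QuotientGroup.mk'_surjective K x
    rcases hP.tri x with h | h | h
    · left
      rw [Subgroup.mem_bot]
      exact (QuotientGroup.eq_one_iff x).mpr h
    · right; left; exact ⟨x, h, rfl⟩
    · right; right; exact ⟨x⁻¹, h, map_inv _ _⟩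
  asym := by
    rintro _ ⟨a, ha, rfl⟩ ⟨b, hb, hab⟩
    rw [← map_inv] at hab
    have h1 : b⁻¹ * a⁻¹ ∈ K := QuotientGroup.eq.mp hab
    have h2 := hP.mul _ ha _ hb
    apply hP.nmem _ h2
    have := K.inv_mem h1
    simpa using this
  nmem := by
    rintro _ ⟨a, ha, rfl⟩ h
    rw [Subgroup.mem_bot] at h
    exact hP.nmem _ ha ((QuotientGroup.eq_one_iff a).mp h)

end Pool.Agent.R842.Orb
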