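import Pool.Agent.R842.Orb.Cut

set_option autoImplicit false

namespace Pool.Agent.R842.Orb

universe u

variable {G : Type u} [Group G]

/-- elements of `H` commuting with all elements of `X` -/
def NN (H X : Subgroup G) : Subgroup G where
  carrier := {h | h ∈ H ∧ ∀ x ∈ X, h * x = x * h}
  one_mem' := ⟨H.one_mem, fun x _ => by simp⟩
  mul_mem' := by
    rintro a b ⟨ha, ha'⟩ ⟨hb, hb'⟩
    refine ⟨H.mul_mem ha hb, fun x hx => ?_⟩
    rw [mul_assoc, hb' x hx, ← mul_assoc, ha' x hx, mul_assoc]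
  inv_mem' := by
    rintro a ⟨ha, ha'⟩
    refine ⟨H.inv_mem ha, fun x hx => ?_⟩
    rw [inv_mul_eq_iff_eq_mul, ← mul_assoc, ha' x hx, mul_inv_cancel_right]

lemma mem_NN {H X : Subgroup G} {h : G} : h ∈ NN H X ↔ h ∈ H ∧ ∀ x ∈ X, h * x = x * h := Iff.rfl

lemma NN_normal {H X : Subgroup G} (hH : H.Normal) (hX : X.Normal) : (NN H X).Normal := by
  constructor
  rintro a ⟨ha, ha'⟩ g
  refine ⟨hH.conj_mem a ha g, fun x hx => ?_⟩
  have h1 : g⁻¹ * x * g ∈ X := by simpa using hX.conj_mem x hx g⁻¹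
  calc g * a * g⁻¹ * x = g * (a * (g⁻¹ * x * g)) * g⁻¹ := by group
    _ = g * ((g⁻¹ * x * g) * a) * g⁻¹ := by rw [ha' _ h1]
    _ = x * (g * a * g⁻¹) := by group

lemma sh_of_eq {a b : Set G} {g : G} (h : a = sh b g) : sh a g⁻¹ = b := by
  rw [h, sh_sh, mul_inv_cancel, sh_one]

variable [LinearOrder G] [MulLeftMono G] [MulRightMono G]

namespace Stp

variable {H D : Subgroup G} (S : Stp H D) {X : Subgroup G}
include S

/-- `H` modulo the centraliser of `X`, with `G` acting, has an invariant order. -/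
theorem cone_NN (hX : X.Normal) (hXH : X ≤ H)
    (hab : ∀ a ∈ H, ∀ b ∈ H, a * b * a⁻¹ * b⁻¹ ∈ NN H X) : ∃ P, RelCone (NN H X) P := by
  classical
  have hNct : ∀ h ∈ H, h ∈ NN H X ↔ ct D X h = ∅ := by
    intro h hh
    rw [mem_NN, S.ct_empty]
    exact ⟨fun h => h.2, fun h => ⟨hh, h⟩⟩
  -- cones on the sections
  have hQ : ∀ r : Set G, ∃ Q : Set G, r.Nonempty →
      (∀ a ∈ Q, a ∈ H ∧ ct D X a = r) ∧ (∀ a ∈ Q, ∀ b ∈ Q, a * b ∈ Q) ∧
      (∀ a ∈ H, ct D X a = r → a ∈ Q ∨ a⁻¹ ∈ Q) ∧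
      (∀ a ∈ Q, ∀ w ∈ H, ct D X w ⊂ r → a * w ∈ Q ∧ w * a ∈ Q) := by
    intro r
    by_cases hr : r.Nonempty
    swap
    · exact ⟨∅, fun h => absurd h hr⟩
    let V : Subgroup G :=
      { carrier := {h | h ∈ H ∧ ct D X h ⊆ r}
        one_mem' := ⟨H.one_mem, by rw [ct_one]; exact Set.empty_subset _⟩
        mul_mem' := by
          rintro a b ⟨ha, ha'⟩ ⟨hb, hb'⟩
          exact ⟨H.mul_mem ha hb, (S.ct_mul ha).trans (Set.union_subset ha' hb')⟩
        inv_mem' := by
          rintro a ⟨ha, ha'⟩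
          exact ⟨H.inv_mem ha, by rw [S.ct_inv ha]; exact ha'⟩ }
    let W : Subgroup G :=
      { carrier := {h | h ∈ H ∧ ct D X h ⊂ r}
        one_mem' := ⟨H.one_mem, by
          rw [ct_one]
          exact Set.empty_ssubset.mpr hr⟩
        mul_mem' := by
          rintro a b ⟨ha, ha'⟩ ⟨hb, hb'⟩
          refine ⟨H.mul_mem ha hb, ?_⟩
          rcases S.ct_total (X := X) a b with h | h
          · refine lt_of_le_of_lt ((S.ct_mul ha).trans (Set.union_subset h le_rfl)) hb'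
          · refine lt_of_le_of_lt ((S.ct_mul ha).trans (Set.union_subset le_rfl h)) ha'
        inv_mem' := by
          rintro a ⟨ha, ha'⟩
          exact ⟨H.inv_mem ha, by rw [S.ct_inv ha]; exact ha'⟩ }
    obtain ⟨Q, h1, h2, h3, h4, h5⟩ := tf_rel V W (fun a ha => ⟨ha.1, ha.2.subset⟩)
      (by
        intro a ha b hb
        have h1 := hab a ha.1 b hb.1
        refine ⟨h1.1, ?_⟩
        rw [(hNct _ h1.1).mp h1]
        exact Set.empty_ssubset.mpr hr)
      (by
        rintro a ha n hn ⟨h1, h2⟩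
        refine ⟨ha.1, ?_⟩
        rwa [S.ct_pow ha.1 hn] at h2)
    refine ⟨Q, fun _ => ⟨?_, h2, ?_, ?_⟩⟩
    · intro a ha
      refine ⟨(h1 a ha).1, ?_⟩
      by_contra hne
      exact h3 a ha ⟨(h1 a ha).1, lt_of_le_of_ne (h1 a ha).2 hne⟩
    · intro a ha hr'
      refine h4 a ⟨ha, hr'.subset⟩ ?_
      rintro ⟨-, h⟩
      rw [hr'] at h
      exact lt_irrefl _ h
    · intro a ha w hw hlt
      exact h5 a ha w ⟨hw, hlt⟩
  choose Q hQ using hQ
  -- representatives
  let st : Setoid (Set G) :=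
    { r := fun c c' => ∃ g, c' = sh c g
      iseqv := by
        refine ⟨fun c => ⟨1, (sh_one c).symm⟩, ?_, ?_⟩
        · rintro c c' ⟨g, rfl⟩
          exact ⟨g⁻¹, by rw [sh_sh, mul_inv_cancel, sh_one]⟩
        · rintro c c' c'' ⟨g, rfl⟩ ⟨g', rfl⟩
          exact ⟨g * g', by rw [sh_sh]⟩ }
  let rep : Set G → Set G := fun c => (Quotient.mk st c).out
  have hrep : ∀ c, ∃ y, c = sh (rep c) y := fun c => Quotient.mk_out c
  have hrepsh : ∀ c g, rep (sh c g) = rep c := by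
    intro c g
    have : (Quotient.mk st c) = Quotient.mk st (sh c g) := Quotient.sound ⟨g, rfl⟩
    show (Quotient.mk st (sh c g)).out = (Quotient.mk st c).out
    rw [this]
  choose y hy using hrep
  have hrne : ∀ c : Set G, c.Nonempty → (rep c).Nonempty := by
    rintro c ⟨g, hg⟩
    rw [hy c, mem_sh] at hg
    exact ⟨_, hg⟩
  -- the cut of the conjugate
  have hcy : ∀ h, ct D X (y (ct D X h) * h * (y (ct D X h))⁻¹) = rep (ct D X h) := by
    intro h
    rw [ct_conj' hX]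
    exact sh_of_eq (hy _)
  let pos : G → Prop := fun h => y (ct D X h) * h * (y (ct D X h))⁻¹ ∈ Q (rep (ct D X h))
  have hpos : ∀ h c, ct D X h = c → (pos h ↔ y c * h * (y c)⁻¹ ∈ Q (rep c)) := by
    rintro h _ rfl; exact Iff.rfl
  have hssub : ∀ (a b : Set G) (g : G), a ⊂ b → sh a g ⊂ sh b g := by
    intro a b g hlt
    refine lt_of_le_of_ne (sh_mono hlt.subset g) fun h => ?_
    exact hlt.ne (sh_inj h)
  have hposmul : ∀ a ∈ H, ∀ b ∈ H, ct D X a ≠ ∅ → ct D X b ≠ ∅ → pos a → pos b →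
      ct D X (a * b) ≠ ∅ ∧ pos (a * b) := by
    intro a ha b hb hane hbne hpa hpb
    have hcb := S.ct_isCut hXH hb hbne
    have hca := S.ct_isCut hXH ha hane
    rcases S.ct_total (X := X) a b with h | h
    · by_cases he : ct D X a = ct D X b
      · rw [hpos a _ he] at hpa
        have h1 : y (ct D X b) * (a * b) * (y (ct D X b))⁻¹ ∈ Q (rep (ct D X b)) := by
          have := (hQ _ (hrne _ hcb.ne)).2.1 _ hpa _ hpb
          rwa [show y (ct D X b) * a * (y (ct D X b))⁻¹ * (y (ct D X b) * b * (y (ct D X b))⁻¹) =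
            y (ct D X b) * (a * b) * (y (ct D X b))⁻¹ by group] at this
        have h2 := ((hQ _ (hrne _ hcb.ne)).1 _ h1).2
        rw [ct_conj' hX] at h2
        have h3 : ct D X (a * b) = ct D X b := by
          have h4 := congrArg (fun s => sh s (y (ct D X b))) h2
          simp only [sh_sh, inv_mul_cancel, sh_one] at h4
          rw [h4]
          exact (hy _).symm
        exact ⟨by rw [h3]; exact hbne, (hpos _ _ h3).mpr h1⟩
      · have hlt : ct D X a ⊂ ct D X b := lt_of_le_of_ne h he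
        have h3 := (S.ct_mul_eq ha hb hlt).1
        refine ⟨by rw [h3]; exact hbne, (hpos _ _ h3).mpr ?_⟩
        have h5 : ct D X (y (ct D X b) * a * (y (ct D X b))⁻¹) ⊂ rep (ct D X b) := by
          rw [← hcy b, ct_conj' hX, ct_conj' hX]
          exact hssub _ _ _ hlt
        have := ((hQ _ (hrne _ hcb.ne)).2.2.2 _ hpb _ (S.hH.conj_mem a ha _) h5).2
        rwa [show y (ct D X b) * a * (y (ct D X b))⁻¹ * (y (ct D X b) * b * (y (ct D X b))⁻¹) =
            y (ct D X b) * (a * b) * (y (ct D X b))⁻¹ by group] at this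
    · by_cases he : ct D X b = ct D X a
      · rw [hpos b _ he] at hpb
        have h1 : y (ct D X a) * (a * b) * (y (ct D X a))⁻¹ ∈ Q (rep (ct D X a)) := by
          have := (hQ _ (hrne _ hca.ne)).2.1 _ hpa _ hpb
          rwa [show y (ct D X a) * a * (y (ct D X a))⁻¹ * (y (ct D X a) * b * (y (ct D X a))⁻¹) =
            y (ct D X a) * (a * b) * (y (ct D X a))⁻¹ by group] at this
        have h2 := ((hQ _ (hrne _ hca.ne)).1 _ h1).2
        rw [ct_conj' hX] at h2
        have h3 : ct D X (a * b) = ct D X a := by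
          have h4 := congrArg (fun s => sh s (y (ct D X a))) h2
          simp only [sh_sh, inv_mul_cancel, sh_one] at h4
          rw [h4]
          exact (hy _).symm
        exact ⟨by rw [h3]; exact hane, (hpos _ _ h3).mpr h1⟩
      · have hlt : ct D X b ⊂ ct D X a := lt_of_le_of_ne h he
        have h3 := (S.ct_mul_eq hb ha hlt).2
        refine ⟨by rw [h3]; exact hane, (hpos _ _ h3).mpr ?_⟩
        have h5 : ct D X (y (ct D X a) * b * (y (ct D X a))⁻¹) ⊂ rep (ct D X a) := by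
          rw [← hcy a, ct_conj' hX, ct_conj' hX]
          exact hssub _ _ _ hlt
        have := ((hQ _ (hrne _ hca.ne)).2.2.2 _ hpa _ (S.hH.conj_mem b hb _) h5).1
        rwa [show y (ct D X a) * a * (y (ct D X a))⁻¹ * (y (ct D X a) * b * (y (ct D X a))⁻¹) =
            y (ct D X a) * (a * b) * (y (ct D X a))⁻¹ by group] at this
  have hposconj : ∀ a ∈ H, ct D X a ≠ ∅ → pos a → ∀ g, ct D X (g * a * g⁻¹) ≠ ∅ ∧
      pos (g * a * g⁻¹) := by
    intro a ha hane hpa g
    have hca := S.ct_isCut hXH ha hane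
    have hcc : ct D X (g * a * g⁻¹) = sh (ct D X a) g⁻¹ := ct_conj' hX a g
    have hne : ct D X (g * a * g⁻¹) ≠ ∅ := by
      rw [hcc]; exact Set.nonempty_iff_ne_empty.mp (hca.sh g⁻¹).ne
    refine ⟨hne, ?_⟩
    rw [hpos _ _ hcc, hrepsh]
    set c := ct D X a with hc
    set c' := sh c g⁻¹ with hc'
    have hr : IsCut D (rep c) := by
      have h1 := hca.sh (y c)⁻¹
      have h2 : sh c (y c)⁻¹ = rep c := sh_of_eq (hy c)
      rwa [h2] at h1
    -- `k = y c * g⁻¹ * (y c')⁻¹ ∈ H`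
    have hk : y c * g⁻¹ * (y c')⁻¹ ∈ H := by
      apply S.free hr
      have h1 : c' = sh (rep c) (y c') := by
        have := hy c'
        rwa [hc', hrepsh, ← hc'] at this
      have h2 : sh (rep c) (y c * g⁻¹) = c' := by
        rw [hc', ← sh_sh, ← hy c]
      rw [← sh_sh, h2]
      exact sh_of_eq h1
    set k := y c * g⁻¹ * (y c')⁻¹ with hkdef
    have hb : y c' * (g * a * g⁻¹) * (y c')⁻¹ = k⁻¹ * (y c * a * (y c)⁻¹) * k := by
      rw [hkdef]; group
    rw [hb]
    set b := y c * a * (y c)⁻¹ with hbdef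
    have hbH : b ∈ H := S.hH.conj_mem a ha _
    have hbQ : b ∈ Q (rep c) := hpa
    have h3 : k⁻¹ * b * k = (k⁻¹ * b * k⁻¹⁻¹ * b⁻¹) * b := by group
    rw [h3]
    have h4 := hab k⁻¹ (H.inv_mem hk) b hbH
    refine ((hQ _ hr.ne).2.2.2 b hbQ _ h4.1 ?_).2
    rw [(hNct _ h4.1).mp h4]
    exact Set.empty_ssubset.mpr hr.ne
  refine ⟨{h | (h ∈ H ∧ ct D X h ≠ ∅ ∧ pos h) ∨ (1 < h ∧ h ∉ H)}, ?_⟩
  have hmul : ∀ a ∈ {h | (h ∈ H ∧ ct D X h ≠ ∅ ∧ pos h) ∨ (1 < h ∧ h ∉ H)},
      ∀ b ∈ {h | (h ∈ H ∧ ct D X h ≠ ∅ ∧ pos h) ∨ (1 < h ∧ h ∉ H)},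
      a * b ∈ {h | (h ∈ H ∧ ct D X h ≠ ∅ ∧ pos h) ∨ (1 < h ∧ h ∉ H)} := by
    rintro a (⟨ha, ha1, ha2⟩ | ⟨ha, ha'⟩) b (⟨hb, hb1, hb2⟩ | ⟨hb, hb'⟩)
    · left
      obtain ⟨h1, h2⟩ := hposmul a ha b hb ha1 hb1 ha2 hb2
      exact ⟨H.mul_mem ha hb, h1, h2⟩
    · right
      refine ⟨?_, fun h => hb' ?_⟩
      · by_contra hcon
        rw [not_lt] at hcon
        apply hb'
        refine S.hHc b a⁻¹ hb.le ?_ (H.inv_mem ha)
        have := mul_le_mul_right hcon a⁻¹
        rwa [inv_mul_cancel_left, mul_one] at this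
      · have := H.mul_mem (H.inv_mem ha) h
        rwa [inv_mul_cancel_left] at this
    · right
      refine ⟨?_, fun h => ha' ?_⟩
      · by_contra hcon
        rw [not_lt] at hcon
        apply ha'
        refine S.hHc a b⁻¹ ha.le ?_ (H.inv_mem hb)
        have := mul_le_mul_left hcon b⁻¹
        rwa [mul_inv_cancel_right, one_mul] at this
      · have := H.mul_mem h (H.inv_mem hb)
        rwa [mul_inv_cancel_right] at this
    · right
      have h1 : a < a * b := lt_mul_of_one_lt_right' a hb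
      refine ⟨ha.trans h1, fun h => ha' ?_⟩
      exact S.hHc a (a * b) ha.le h1.le h
  have hnmem : ∀ a ∈ {h | (h ∈ H ∧ ct D X h ≠ ∅ ∧ pos h) ∨ (1 < h ∧ h ∉ H)}, a ∉ NN H X := by
    rintro a (⟨ha, ha1, ha2⟩ | ⟨ha, ha'⟩) h
    · exact ha1 ((hNct a ha).mp h)
    · exact ha' h.1
  refine ⟨hmul, ?_, ?_, ?_, hnmem⟩
  · rintro a (⟨ha, ha1, ha2⟩ | ⟨ha, ha'⟩) g
    · left
      obtain ⟨h1, h2⟩ := hposconj a ha ha1 ha2 g
      exact ⟨S.hH.conj_mem a ha g, h1, h2⟩
    · right
      refine ⟨?_, fun h => ha' ?_⟩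
      · have := mul_lt_mul_left (mul_lt_mul_right ha g) g⁻¹
        rwa [mul_one, mul_inv_cancel] at this
      · have := S.hH.conj_mem _ h g⁻¹
        rwa [show g⁻¹ * (g * a * g⁻¹) * g⁻¹⁻¹ = a by group] at this
  · intro a
    by_cases haH : a ∈ H
    · by_cases haN : ct D X a = ∅
      · left; exact (hNct a haH).mpr haN
      · right
        have hca := S.ct_isCut hXH haH haN
        have h1 := hcy a
        rcases (hQ _ (hrne _ hca.ne)).2.2.1 _ (S.hH.conj_mem a haH _) h1 with h | h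
        · left; left; exact ⟨haH, haN, h⟩
        · right; left
          have h2 := S.ct_inv (X := X) haH
          refine ⟨H.inv_mem haH, by rw [h2]; exact haN, (hpos _ _ h2).mpr ?_⟩
          rwa [show (y (ct D X a) * a * (y (ct D X a))⁻¹)⁻¹ =
            y (ct D X a) * a⁻¹ * (y (ct D X a))⁻¹ by group] at h
    · right
      rcases lt_trichotomy 1 a with h | h | h
      · left; right; exact ⟨h, haH⟩
      · exact absurd (h ▸ H.one_mem) haH
      · right; right
        exact ⟨one_lt_inv'.mpr h, fun h' => haH (by simpa using H.inv_mem h')⟩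
  · intro a ha ha'
    have := hmul a ha _ ha'
    rw [mul_inv_cancel] at this
    exact hnmem 1 this (Subgroup.one_mem _)

end Stp

end Pool.Agent.R842.Orb
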