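import Pool.Agent.R842.Orb.Basic

set_option autoImplicit false

namespace Pool.Agent.R842.Orb

universe u

variable {G : Type u} [Group G] [LinearOrder G] [MulLeftMono G] [MulRightMono G]

/-! ### Basic facts on bi-ordered groups -/

lemma pow_inj {a b : G} {n : ℕ} (hn : n ≠ 0) (h : a ^ n = b ^ n) : a = b :=
  (pow_left_strictMono hn).injective h

/-- centralisers are isolated -/
lemma comm_of_pow {a b : G} {n : ℕ} (hn : n ≠ 0) (h : a ^ n * b = b * a ^ n) : a * b = b * a := by
  have h1 : (b⁻¹ * a * b) ^ n = a ^ n := by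
    have := conj_pow (a := b⁻¹) (b := a) (i := n)
    rw [inv_inv] at this
    rw [this, mul_assoc, h, inv_mul_cancel_left]
  have h2 := pow_inj hn h1
  calc a * b = b * (b⁻¹ * a * b) := by group
    _ = b * a := by rw [h2]

lemma pow_eq_one' {a : G} {n : ℕ} (hn : n ≠ 0) (h : a ^ n = 1) : a = 1 :=
  pow_inj hn (by rw [h, one_pow])

/-! ### Convex subgroups -/

/-- convex subgroups -/
def Cvx (L : Subgroup G) : Prop := ∀ x y : G, 1 ≤ x → x ≤ y → y ∈ L → x ∈ L

lemma exists_pos_of_not_mem {L M : Subgroup G} {x : G} (hx : x ∈ L) (hx' : x ∉ M) :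
    ∃ y, 1 ≤ y ∧ y ∈ L ∧ y ∉ M := by
  rcases le_total 1 x with h | h
  · exact ⟨x, h, hx, hx'⟩
  · exact ⟨x⁻¹, one_le_inv'.mpr h, L.inv_mem hx, fun h' => hx' (by simpa using M.inv_mem h')⟩

lemma cvx_total {L M : Subgroup G} (hL : Cvx L) (hM : Cvx M) : L ≤ M ∨ M ≤ L := by
  by_contra hcon
  push Not at hcon
  obtain ⟨x, hx, hx'⟩ := SetLike.not_le_iff_exists.mp hcon.1
  obtain ⟨y, hy, hy'⟩ := SetLike.not_le_iff_exists.mp hcon.2
  obtain ⟨x, h1x, hx, hx'⟩ := exists_pos_of_not_mem hx hx'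
  obtain ⟨y, h1y, hy, hy'⟩ := exists_pos_of_not_mem hy hy'
  rcases le_total x y with h | h
  · exact hx' (hM x y h1x h hy)
  · exact hy' (hL y x h1y h hx)

/-- the conjugate `g⁻¹ L g` -/
def cj (g : G) (L : Subgroup G) : Subgroup G := L.comap (MulAut.conj g).toMonoidHom

omit [LinearOrder G] [MulLeftMono G] [MulRightMono G] in
lemma mem_cj {g x : G} {L : Subgroup G} : x ∈ cj g L ↔ g * x * g⁻¹ ∈ L := Iff.rfl

omit [LinearOrder G] [MulLeftMono G] [MulRightMono G] in
lemma cj_mul (g h : G) (L : Subgroup G) : cj (g * h) L = cj h (cj g L) := by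
  ext x
  rw [mem_cj, mem_cj, mem_cj]
  rw [show g * h * x * (g * h)⁻¹ = g * (h * x * h⁻¹) * g⁻¹ by group]

omit [LinearOrder G] [MulLeftMono G] [MulRightMono G] in
lemma cj_one (L : Subgroup G) : cj 1 L = L := by
  ext x; rw [mem_cj]; simp

omit [LinearOrder G] [MulLeftMono G] [MulRightMono G] in
lemma cj_mono {g : G} {L M : Subgroup G} (h : L ≤ M) : cj g L ≤ cj g M := fun _ hx => h hx

omit [LinearOrder G] [MulLeftMono G] [MulRightMono G] in
lemma cj_inj {g : G} {L M : Subgroup G} (h : cj g L = cj g M) : L = M := by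
  have := congrArg (cj g⁻¹) h
  rwa [← cj_mul, ← cj_mul, mul_inv_cancel, cj_one, cj_one] at this

omit [LinearOrder G] [MulLeftMono G] [MulRightMono G] in
lemma cj_normal {g : G} {L : Subgroup G} (h : L.Normal) : cj g L = L := by
  ext x
  rw [mem_cj]
  exact ⟨fun hx => by
    have := h.conj_mem _ hx g⁻¹
    rwa [show g⁻¹ * (g * x * g⁻¹) * g⁻¹⁻¹ = x by group] at this, fun hx => h.conj_mem _ hx g⟩

omit [LinearOrder G] [MulLeftMono G] [MulRightMono G] in
lemma normal_of_cj {L : Subgroup G} (h : ∀ g, cj g L = L) : L.Normal :=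
  ⟨fun x hx g => by rw [← mem_cj, h g]; exact hx⟩

omit [LinearOrder G] [MulLeftMono G] [MulRightMono G] in
lemma cj_mem_self {g : G} {L : Subgroup G} (hg : g ∈ L) : cj g L = L := by
  ext x
  rw [mem_cj]
  constructor
  · intro h
    have := L.mul_mem (L.mul_mem (L.inv_mem hg) h) hg
    rwa [show g⁻¹ * (g * x * g⁻¹) * g = x by group] at this
  · intro h
    exact L.mul_mem (L.mul_mem hg h) (L.inv_mem hg)

lemma cvx_cj {g : G} {L : Subgroup G} (h : Cvx L) : Cvx (cj g L) := by
  intro x y h1 h2 h3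
  rw [mem_cj] at *
  refine h _ (g * y * g⁻¹) ?_ ?_ h3
  · have : g * 1 * g⁻¹ ≤ g * x * g⁻¹ := mul_le_mul_left (mul_le_mul_right h1 g) g⁻¹
    simpa using this
  · exact mul_le_mul_left (mul_le_mul_right h2 g) g⁻¹

lemma cj_pow_fix {g : G} {L : Subgroup G} (hL : Cvx L) {n : ℕ} (hn : n ≠ 0)
    (h : cj (g ^ n) L = L) : cj g L = L := by
  rcases cvx_total hL (cvx_cj (g := g) hL) with h1 | h1
  · have h2 : ∀ m : ℕ, cj g L ≤ cj (g ^ (m + 1)) L := by
      intro m
      induction m with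
      | zero => rw [zero_add, pow_one]
      | succ m ih =>
        have h3 := cj_mono (g := g) ih
        rw [← cj_mul, ← cj_mul, ← pow_succ] at h3
        refine le_trans ?_ h3
        rw [cj_mul]
        exact cj_mono h1
    obtain ⟨m, rfl⟩ := Nat.exists_eq_succ_of_ne_zero hn
    have h4 := h2 m
    rw [h] at h4
    exact le_antisymm h4 h1
  · have h2 : ∀ m : ℕ, cj (g ^ (m + 1)) L ≤ cj g L := by
      intro m
      induction m with
      | zero => rw [zero_add, pow_one]
      | succ m ih =>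
        have h3 := cj_mono (g := g) ih
        rw [← cj_mul, ← cj_mul, ← pow_succ] at h3
        refine le_trans h3 ?_
        rw [cj_mul]
        exact cj_mono h1
    obtain ⟨m, rfl⟩ := Nat.exists_eq_succ_of_ne_zero hn
    have h4 := h2 m
    rw [h] at h4
    exact le_antisymm h1 h4

/-- unions of chains of convex subgroups -/
lemma mem_sSup_cvx {S : Set (Subgroup G)} (hS : ∀ L ∈ S, Cvx L) (hne : S.Nonempty) {x : G} :
    x ∈ sSup S ↔ ∃ L ∈ S, x ∈ L := by
  refine Subgroup.mem_sSup_of_directedOn hne ?_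
  intro a ha b hb
  rcases cvx_total (hS a ha) (hS b hb) with h | h
  · exact ⟨b, hb, h, le_rfl⟩
  · exact ⟨a, ha, le_rfl, h⟩

lemma cvx_sSup {S : Set (Subgroup G)} (hS : ∀ L ∈ S, Cvx L) (hne : S.Nonempty) :
    Cvx (sSup S) := by
  intro x y h1 h2 h3
  rw [mem_sSup_cvx hS hne] at *
  obtain ⟨L, hL, hy⟩ := h3
  exact ⟨L, hL, hS L hL x y h1 h2 hy⟩

/-- the convex subgroup generated by `a` -/
def DD (a : G) : Subgroup G := sInf {L | Cvx L ∧ a ∈ L}

lemma mem_DD {a x : G} : x ∈ DD a ↔ ∀ L : Subgroup G, Cvx L → a ∈ L → x ∈ L := by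
  unfold DD
  rw [Subgroup.mem_sInf]
  constructor
  · intro h L h1 h2; exact h L ⟨h1, h2⟩
  · rintro h L ⟨h1, h2⟩; exact h L h1 h2

lemma self_mem_DD (a : G) : a ∈ DD a := mem_DD.mpr fun _ _ h => h

lemma cvx_DD (a : G) : Cvx (DD a) := by
  intro x y h1 h2 h3
  rw [mem_DD] at *
  intro L hL ha
  exact hL x y h1 h2 (h3 L hL ha)

lemma DD_le {a : G} {L : Subgroup G} (hL : Cvx L) (ha : a ∈ L) : DD a ≤ L := fun _ hx =>
  mem_DD.mp hx L hL ha

lemma cj_DD (g a : G) : cj g (DD a) = DD (g⁻¹ * a * g) := by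
  apply le_antisymm
  · intro x hx
    rw [mem_cj, mem_DD] at hx
    rw [mem_DD]
    intro L hL ha
    have := hx (cj g⁻¹ L) (cvx_cj hL) (by rw [mem_cj, inv_inv]; exact ha)
    rw [mem_cj] at this
    rwa [show g⁻¹ * (g * x * g⁻¹) * g⁻¹⁻¹ = x by group] at this
  · refine DD_le (cvx_cj (cvx_DD a)) ?_
    rw [mem_cj, show g * (g⁻¹ * a * g) * g⁻¹ = a by group]
    exact self_mem_DD a

/-- explicit description of the generated convex subgroup -/
lemma DD_bound {b : G} (hb : 1 ≤ b) {x : G} (hx : x ∈ DD b) : ∃ n : ℕ, x ≤ b ^ n := by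
  let E : Subgroup G :=
    { carrier := {x | ∃ n : ℕ, x ≤ b ^ n ∧ x⁻¹ ≤ b ^ n}
      one_mem' := ⟨0, by simp, by simp⟩
      mul_mem' := by
        rintro x y ⟨n, h1, h2⟩ ⟨m, h3, h4⟩
        refine ⟨n + m, ?_, ?_⟩
        · rw [pow_add]; exact mul_le_mul' h1 h3
        · rw [add_comm, pow_add, mul_inv_rev]; exact mul_le_mul' h4 h2
      inv_mem' := by
        rintro x ⟨n, h1, h2⟩
        exact ⟨n, h2, by rwa [inv_inv]⟩ }
  have hE : Cvx E := by
    rintro x y h1 h2 ⟨n, h3, h4⟩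
    exact ⟨n, h2.trans h3, (inv_le_one'.mpr h1).trans (one_le_pow_of_one_le' hb n)⟩
  have hbE : b ∈ E := ⟨1, by simp, by
    rw [pow_one]; exact (inv_le_one'.mpr hb).trans hb⟩
  obtain ⟨n, h, -⟩ := mem_DD.mp hx E hE hbE
  exact ⟨n, h⟩

/-! ### Hölder's theorem -/

lemma holder_aux {H : Subgroup G} (harch : ∀ x ∈ H, 1 < x → ∀ y ∈ H, ∃ n : ℕ, y ≤ x ^ n)
    {x y : G} (hx : x ∈ H) (hy : y ∈ H) (h1x : 1 < x) (h1y : 1 < y) : ¬ y * x < x * y := by
  intro hlt
  set c := x * y * (y * x)⁻¹ with hc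
  have hcH : c ∈ H := H.mul_mem (H.mul_mem hx hy) (H.inv_mem (H.mul_mem hy hx))
  have hc1 : 1 < c := by
    have := mul_lt_mul_left hlt (y * x)⁻¹
    rwa [mul_inv_cancel] at this
  have hfind : ∀ z ∈ H, 1 < z → ∀ w ∈ H, 1 < w → ∃ m : ℕ, z ^ m ≤ w ∧ w < z ^ (m + 1) := by
    intro z hz h1z w hw h1w
    have hex : ∃ n : ℕ, w < z ^ n := by
      obtain ⟨n, hn⟩ := harch z hz h1z w hw
      exact ⟨n + 1, hn.trans_lt (by rw [pow_succ]; exact lt_mul_of_one_lt_right' _ h1z)⟩
    classical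
    have h2 := Nat.find_spec hex
    have h3 : Nat.find hex ≠ 0 := by
      intro h
      rw [h, pow_zero] at h2
      exact absurd h1w (not_lt.mpr h2.le)
    obtain ⟨m, hm⟩ := Nat.exists_eq_succ_of_ne_zero h3
    refine ⟨m, ?_, by rw [← Nat.succ_eq_add_one, ← hm]; exact h2⟩
    have := Nat.find_min hex (m := m) (by omega)
    exact not_lt.mp this
  by_cases hz : ∃ z ∈ H, 1 < z ∧ z * z ≤ c
  · obtain ⟨z, hzH, h1z, hzc⟩ := hz
    obtain ⟨m, hm1, hm2⟩ := hfind z hzH h1z x hx h1x
    obtain ⟨n, hn1, hn2⟩ := hfind z hzH h1z y hy h1y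
    have h4 : x * y < z ^ (m + n) * (z * z) := by
      have := mul_lt_mul_of_lt_of_lt hm2 hn2
      refine this.trans_eq ?_
      rw [← pow_two, ← pow_add, ← pow_add]; congr 1; omega
    have h5 : z ^ (m + n) ≤ y * x := by
      rw [add_comm, pow_add]; exact mul_le_mul' hn1 hm1
    have h6 : x * y = c * (y * x) := by rw [hc]; group
    rw [h6] at h4
    have h7 : z * z * z ^ (m + n) ≤ c * (y * x) := mul_le_mul' hzc h5
    rw [← pow_two, ← pow_add] at h7
    rw [← pow_two, ← pow_add, add_comm] at h4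
    exact absurd h4 (not_lt.mpr h7)
  · push Not at hz
    -- `c` is the least positive element
    have hmin : ∀ z ∈ H, 1 < z → c ≤ z := by
      intro z hzH h1z
      by_contra hcon
      rw [not_le] at hcon
      have h2 : 1 < z⁻¹ * c := by
        have := mul_lt_mul_right hcon z⁻¹
        rwa [inv_mul_cancel] at this
      have h3 : z⁻¹ * c ∈ H := H.mul_mem (H.inv_mem hzH) hcH
      rcases le_total z (z⁻¹ * c) with h4 | h4
      · have h5 := hz z hzH h1z
        have h6 := mul_le_mul_right h4 z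
        rw [mul_inv_cancel_left] at h6
        exact absurd h5 (not_lt.mpr h6)
      · have h5 := hz _ h3 h2
        have h6 := mul_le_mul_left h4 (z⁻¹ * c)
        rw [mul_inv_cancel_left] at h6
        exact absurd h5 (not_lt.mpr h6)
    have hpw : ∀ w ∈ H, 1 < w → ∃ k : ℕ, w = c ^ k := by
      intro w hw h1w
      obtain ⟨m, h2, h3⟩ := hfind c hcH hc1 w hw h1w
      refine ⟨m, ?_⟩
      by_contra hne
      have h4 : c ^ m < w := lt_of_le_of_ne h2 (Ne.symm hne)
      have h5 : 1 < (c ^ m)⁻¹ * w := by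
        have := mul_lt_mul_right h4 (c ^ m)⁻¹
        rwa [inv_mul_cancel] at this
      have h6 := hmin _ (H.mul_mem (H.inv_mem (H.pow_mem hcH m)) hw) h5
      have h7 := mul_le_mul_right h6 (c ^ m)
      rw [mul_inv_cancel_left, ← pow_succ] at h7
      exact absurd h3 (not_lt.mpr h7)
    obtain ⟨k, hk⟩ := hpw x hx h1x
    obtain ⟨l, hl⟩ := hpw y hy h1y
    rw [hk, hl, ← pow_add, ← pow_add, add_comm] at hlt
    exact lt_irrefl _ hlt

theorem holder {H : Subgroup G} (harch : ∀ x ∈ H, 1 < x → ∀ y ∈ H, ∃ n : ℕ, y ≤ x ^ n)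
    {x y : G} (hx : x ∈ H) (hy : y ∈ H) : x * y = y * x := by
  have hpos : ∀ x ∈ H, ∀ y ∈ H, 1 < x → 1 < y → x * y = y * x := by
    intro x hx y hy h1 h2
    exact le_antisymm (not_lt.mp (holder_aux harch hx hy h1 h2))
      (not_lt.mp (holder_aux harch hy hx h2 h1))
  have h1 : ∀ x ∈ H, ∀ y ∈ H, 1 < x → x * y = y * x := by
    intro x hx y hy hx1
    rcases lt_trichotomy 1 y with h | h | h
    · exact hpos x hx y hy hx1 h
    · rw [← h]; simp
    · have := hpos x hx y⁻¹ (H.inv_mem hy) hx1 (one_lt_inv'.mpr h)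
      calc x * y = y * (y⁻¹ * x) * y := by group
        _ = y * (x * y⁻¹) * y := by rw [this]
        _ = y * x := by group
  rcases lt_trichotomy 1 x with h | h | h
  · exact h1 x hx y hy h
  · rw [← h]; simp
  · have := h1 x⁻¹ (H.inv_mem hx) y hy (one_lt_inv'.mpr h)
    calc x * y = x * (y * x⁻¹) * x := by group
      _ = x * (x⁻¹ * y) * x := by rw [this]
      _ = y * x := by group

/-! ### The key lemma -/

/-- If all convex subgroups of `H` normalised by the commutator subgroup are trivial, then `H` is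
abelian. -/
theorem comm_of_no_inv (A H : Subgroup G) (hA : A.Normal) (hHc : Cvx H)
    (hAab : ∀ a ∈ A, ∀ b ∈ A, a * b = b * a) (hAne : A ≠ ⊥) (hAH : A ≤ H)
    (hGH : commutator G ≤ H)
    (hGA : ∀ x ∈ commutator G, ∀ g : G, x * g * x⁻¹ * g⁻¹ ∈ commutator G →
      g ∈ commutator G → x * g * x⁻¹ * g⁻¹ ∈ A)
    (hinv : ∀ L, Cvx L → L ≤ H → (∀ k ∈ commutator G, cj k L = L) → L = ⊥ ∨ L = H)
    {x y : G} (hx : x ∈ H) (hy : y ∈ H) : x * y = y * x := by
  obtain ⟨⟨a, haA⟩, ha1'⟩ := Subgroup.ne_bot_iff_exists_ne_one.mp hAne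
  have ha1 : a ≠ 1 := fun h => ha1' (Subtype.ext h)
  by_cases hmove : ∀ k ∈ commutator G, cj k (DD a) = DD a
  · -- `DD a = H`
    have hDH : DD a = H := by
      rcases hinv (DD a) (cvx_DD a) (DD_le hHc (hAH haA)) hmove with h | h
      · exfalso
        have := self_mem_DD a
        rw [h, Subgroup.mem_bot] at this
        exact ha1 this
      · exact h
    let S : Set (Subgroup G) := {L | Cvx L ∧ a ∉ L}
    have hScvx : ∀ L ∈ S, Cvx L := fun L hL => hL.1
    have hSne : S.Nonempty := by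
      refine ⟨⊥, ?_, by rwa [Subgroup.mem_bot]⟩
      intro x y h1 h2 h3
      rw [Subgroup.mem_bot] at *
      rw [h3] at h2
      exact le_antisymm h2 h1
    have hSa : a ∉ sSup S := by
      rw [mem_sSup_cvx hScvx hSne]
      rintro ⟨L, hL, ha⟩
      exact hL.2 ha
    have hcv := cvx_sSup hScvx hSne
    have hle : sSup S ≤ H := by
      rcases cvx_total hcv hHc with h | h
      · exact h
      · exact absurd (h (hAH haA)) hSa
    have hSk : ∀ k ∈ commutator G, cj k (sSup S) = sSup S := by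
      have h1 : ∀ k ∈ commutator G, cj k (sSup S) ≤ sSup S := by
        intro k hk
        have hkD : k ∈ DD a := by rw [hDH]; exact hGH hk
        have : a ∉ cj k (sSup S) := by
          rw [mem_cj, mem_sSup_cvx hScvx hSne]
          rintro ⟨L, hL, haL⟩
          apply hL.2
          have h2 : DD (k * a * k⁻¹) ≤ L := DD_le hL.1 haL
          have h3 : DD (k * a * k⁻¹) = DD a := by
            have := cj_DD k⁻¹ a
            rw [inv_inv] at this
            rw [← this]
            exact cj_mem_self (Subgroup.inv_mem _ hkD)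
          rw [h3] at h2
          exact h2 (self_mem_DD a)
        exact le_sSup ⟨cvx_cj hcv, this⟩
      intro k hk
      apply le_antisymm (h1 k hk)
      have := cj_mono (g := k) (h1 k⁻¹ (Subgroup.inv_mem _ hk))
      rwa [← cj_mul, inv_mul_cancel, cj_one] at this
    have hbot : sSup S = ⊥ := by
      rcases hinv _ hcv hle hSk with h | h
      · exact h
      · exfalso
        apply hSa
        rw [h]; exact hAH haA
    refine holder (H := H) ?_ hx hy
    intro x hx h1x y hy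
    apply DD_bound h1x.le
    have hax : a ∈ DD x := by
      by_contra hcon
      have h2 : DD x ≤ sSup S := le_sSup ⟨cvx_DD x, hcon⟩
      rw [hbot] at h2
      have := h2 (self_mem_DD x)
      rw [Subgroup.mem_bot] at this
      exact h1x.ne' this
    have h3 := DD_le (cvx_DD x) hax
    rw [hDH] at h3
    exact h3 hy
  · exfalso
    push Not at hmove
    obtain ⟨w, hw, hwa⟩ := hmove
    let S : Set (Subgroup G) := {L | ∃ b ∈ A, L = DD b ∧ cj w (DD b) ≠ DD b}
    have hScvx : ∀ L ∈ S, Cvx L := by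
      rintro L ⟨b, hb, rfl, -⟩; exact cvx_DD b
    have hSne : S.Nonempty := ⟨DD a, a, haA, rfl, hwa⟩
    have hcv := cvx_sSup hScvx hSne
    have hle : sSup S ≤ H := by
      apply sSup_le
      rintro L ⟨b, hb, rfl, -⟩
      exact DD_le hHc (hAH hb)
    have hinvS : ∀ k ∈ commutator G, ∀ L ∈ S, cj k L ∈ S := by
      rintro k hk L ⟨b, hb, rfl, hwb⟩
      refine ⟨k⁻¹ * b * k, by simpa using hA.conj_mem b hb k⁻¹, cj_DD k b, ?_⟩
      intro h
      apply hwb
      rw [← cj_DD, ← cj_mul] at h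
      -- `k * w = c * (w * k)` with `c ∈ A`
      have hc : k * w * k⁻¹ * w⁻¹ ∈ A := by
        apply hGA k hk w _ hw
        exact Subgroup.mul_mem _ (Subgroup.mul_mem _ (Subgroup.mul_mem _ hk hw)
          (Subgroup.inv_mem _ hk)) (Subgroup.inv_mem _ hw)
      have h2 : k * w = (k * w * k⁻¹ * w⁻¹) * (w * k) := by group
      rw [h2, cj_mul] at h
      have h3 : cj (k * w * k⁻¹ * w⁻¹) (DD b) = DD b := by
        rw [cj_DD]
        congr 1
        rw [mul_assoc, hAab b hb _ hc, inv_mul_cancel_left]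
      rw [h3, cj_mul] at h
      exact cj_inj h
    have hSk : ∀ k ∈ commutator G, cj k (sSup S) = sSup S := by
      have h1 : ∀ k ∈ commutator G, cj k (sSup S) ≤ sSup S := by
        intro k hk x hx
        rw [mem_cj, mem_sSup_cvx hScvx hSne] at hx
        obtain ⟨L, hL, hxL⟩ := hx
        rw [mem_sSup_cvx hScvx hSne]
        exact ⟨cj k L, hinvS k hk L hL, hxL⟩
      intro k hk
      apply le_antisymm (h1 k hk)
      have := cj_mono (g := k) (h1 k⁻¹ (Subgroup.inv_mem _ hk))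
      rwa [← cj_mul, inv_mul_cancel, cj_one] at this
    have hSH : sSup S = H := by
      rcases hinv _ hcv hle hSk with h | h
      · exfalso
        have h2 : DD a ≤ sSup S := le_sSup ⟨a, haA, rfl, hwa⟩
        rw [h] at h2
        have := h2 (self_mem_DD a)
        rw [Subgroup.mem_bot] at this
        exact ha1 this
      · exact h
    have hwS : w ∈ sSup S := by rw [hSH]; exact hGH hw
    rw [mem_sSup_cvx hScvx hSne] at hwS
    obtain ⟨L, ⟨b, hb, rfl, hwb⟩, hwL⟩ := hwS
    exact hwb (cj_mem_self hwL)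

end Pool.Agent.R842.Orb
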