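import Pool.Agent.R842.Orb.Conv

set_option autoImplicit false

namespace Pool.Agent.R842.Orb

universe u

variable {G : Type u} [Group G] [LinearOrder G] [MulLeftMono G] [MulRightMono G]

/-- The data of the proof. -/
structure Stp (H D : Subgroup G) : Prop where
  hH : H.Normal
  hHc : Cvx H
  hne : H ≠ ⊥
  hnt : H ≠ ⊤
  hGH : ∀ a b : G, a * b * a⁻¹ * b⁻¹ ∈ H
  huniq : ∀ N : Subgroup G, N.Normal → (∃ P, RelCone N P) → N = ⊥ ∨ N = H ∨ N = ⊤
  hDc : Cvx D
  hDH : ∀ h ∈ H, cj h D = D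
  hU : ∀ h ∈ H, ∃ g, h ∈ cj g D
  hI : ∀ x, (∀ g, x ∈ cj g D) → x = 1

/-- shifting a set on the right -/
def sh (c : Set G) (g : G) : Set G := {k | k * g⁻¹ ∈ c}

omit [LinearOrder G] [MulLeftMono G] [MulRightMono G] in
lemma mem_sh {c : Set G} {g k : G} : k ∈ sh c g ↔ k * g⁻¹ ∈ c := Iff.rfl

omit [LinearOrder G] [MulLeftMono G] [MulRightMono G] in
lemma sh_sh (c : Set G) (g h : G) : sh (sh c g) h = sh c (g * h) := by
  ext k
  rw [mem_sh, mem_sh, mem_sh, mul_inv_rev, mul_assoc]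

omit [LinearOrder G] [MulLeftMono G] [MulRightMono G] in
lemma sh_one (c : Set G) : sh c 1 = c := by
  ext k
  rw [mem_sh]; simp

omit [LinearOrder G] [MulLeftMono G] [MulRightMono G] in
lemma sh_mono {c c' : Set G} (h : c ⊆ c') (g : G) : sh c g ⊆ sh c' g := fun _ hk => h hk

omit [LinearOrder G] [MulLeftMono G] [MulRightMono G] in
lemma sh_inj {c c' : Set G} {g : G} (h : sh c g = sh c' g) : c = c' := by
  have := congrArg (fun s => sh s g⁻¹) h
  simpa only [sh_sh, mul_inv_cancel, sh_one] using this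

/-- cuts in the chain of conjugates of `D` -/
structure IsCut (D : Subgroup G) (c : Set G) : Prop where
  down : ∀ g g' : G, cj g' D ≤ cj g D → g ∈ c → g' ∈ c
  ne : c.Nonempty
  nu : ∃ g, g ∉ c

lemma down_total {D : Subgroup G} (hD : Cvx D) {c c' : Set G}
    (h : ∀ g g' : G, cj g' D ≤ cj g D → g ∈ c → g' ∈ c)
    (h' : ∀ g g' : G, cj g' D ≤ cj g D → g ∈ c' → g' ∈ c') : c ⊆ c' ∨ c' ⊆ c := by
  by_contra hcon
  push Not at hcon
  obtain ⟨a, ha, ha'⟩ := Set.not_subset.mp hcon.1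
  obtain ⟨b, hb, hb'⟩ := Set.not_subset.mp hcon.2
  rcases cvx_total (cvx_cj (g := a) hD) (cvx_cj (g := b) hD) with h1 | h1
  · exact ha' (h' b a h1 hb)
  · exact hb' (h a b h1 ha)

lemma down_sh {D : Subgroup G} {c : Set G}
    (h : ∀ g g' : G, cj g' D ≤ cj g D → g ∈ c → g' ∈ c) (x : G) :
    ∀ g g' : G, cj g' D ≤ cj g D → g ∈ sh c x → g' ∈ sh c x := by
  intro g g' hg hgc
  rw [mem_sh] at *
  refine h _ _ ?_ hgc
  rw [cj_mul, cj_mul]
  exact cj_mono hg

lemma IsCut.sh {D : Subgroup G} {c : Set G} (h : IsCut D c) (x : G) : IsCut D (sh c x) where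
  down := down_sh h.down x
  ne := by
    obtain ⟨g, hg⟩ := h.ne
    exact ⟨g * x, by rw [mem_sh, mul_inv_cancel_right]; exact hg⟩
  nu := by
    obtain ⟨g, hg⟩ := h.nu
    exact ⟨g * x, by rw [mem_sh, mul_inv_cancel_right]; exact hg⟩

namespace Stp

variable {H D : Subgroup G} (S : Stp H D)
include S

lemma cj_mulH {h : G} (hh : h ∈ H) (g : G) : cj (g * h) D = cj g D := by
  have : g * h = (g * h * g⁻¹) * g := by group
  rw [this, cj_mul, S.hDH _ (S.hH.conj_mem h hh g)]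

lemma normalize {h y : G} (hh : h ∈ H) {g : G} (hy : y ∈ cj g D) : h * y * h⁻¹ ∈ cj g D := by
  rw [← mem_cj, ← cj_mul, S.cj_mulH hh]
  exact hy

lemma sh_H {c : Set G} (hc : IsCut D c) {h : G} (hh : h ∈ H) : sh c h = c := by
  ext k
  rw [mem_sh]
  have h1 : cj (k * h⁻¹) D = cj k D := S.cj_mulH (H.inv_mem hh) k
  exact ⟨fun hk => hc.down _ _ h1.ge hk, fun hk => hc.down _ _ h1.le hk⟩

/-- `G / H` acts freely on the cuts -/
lemma free {c : Set G} (hc : IsCut D c) {x : G} (hx : sh c x = c) : x ∈ H := by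
  let T : Subgroup G :=
    { carrier := {x | sh c x = c}
      one_mem' := sh_one c
      mul_mem' := by
        intro a b ha hb
        simp only [Set.mem_setOf_eq] at *
        rw [← sh_sh, ha, hb]
      inv_mem' := by
        intro a ha
        simp only [Set.mem_setOf_eq] at *
        conv_lhs => rw [← ha]
        rw [sh_sh, mul_inv_cancel, sh_one] }
  have hT : ∀ y, y ∈ T ↔ sh c y = c := fun y => Iff.rfl
  have hHT : H ≤ T := fun h hh => S.sh_H hc hh
  have hTn : T.Normal := by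
    constructor
    intro y hy g
    have := T.mul_mem (hHT (S.hGH g y)) hy
    rwa [inv_mul_cancel_right] at this
  have hcone : RelCone T {y | c ⊆ sh c y ∧ y ∉ T} := by
    refine ⟨?_, ?_, ?_, ?_, ?_⟩
    · rintro a ⟨ha, ha'⟩ b ⟨hb, hb'⟩
      have h1 : sh c b ⊆ sh c (a * b) := by
        rw [← sh_sh]; exact sh_mono ha b
      refine ⟨hb.trans h1, fun hab => hb' ?_⟩
      rw [hT] at *
      rw [hab] at h1
      exact Set.Subset.antisymm h1 hb
    · rintro a ⟨ha, ha'⟩ g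
      refine ⟨?_, fun h => ha' ?_⟩
      · have h1 : g * a * g⁻¹ = (g * a * g⁻¹ * a⁻¹) * a := by group
        rw [h1, ← sh_sh, (hT _).mp (hHT (S.hGH g a))]
        exact ha
      · have := hTn.conj_mem _ h g⁻¹
        rwa [show g⁻¹ * (g * a * g⁻¹) * g⁻¹⁻¹ = a by group] at this
    · intro a
      by_cases ha : a ∈ T
      · exact Or.inl ha
      · right
        rcases down_total S.hDc hc.down (down_sh hc.down a) with h | h
        · left; exact ⟨h, ha⟩
        · right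
          refine ⟨?_, fun h' => ha (by simpa using T.inv_mem h')⟩
          have := sh_mono h a⁻¹
          rwa [sh_sh, mul_inv_cancel, sh_one] at this
    · rintro a ⟨ha, ha'⟩ ⟨hb, -⟩
      apply ha'
      rw [hT]
      have := sh_mono hb a
      rw [sh_sh, inv_mul_cancel, sh_one] at this
      exact Set.Subset.antisymm this ha
    · rintro a ⟨-, ha⟩; exact ha
  rcases S.huniq T hTn ⟨_, hcone⟩ with h | h | h
  · exfalso
    apply S.hne
    rw [eq_bot_iff, ← h]; exact hHT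
  · rw [← h]; exact hx
  · exfalso
    obtain ⟨g, hg⟩ := hc.ne
    obtain ⟨k, hk⟩ := hc.nu
    have h1 : g⁻¹ * k ∈ T := by rw [h]; exact Subgroup.mem_top _
    rw [hT] at h1
    apply hk
    rw [← h1, mem_sh, mul_inv_rev, inv_inv, mul_inv_cancel_left]
    exact hg

end Stp

/-! ### The cut of an element -/

/-- the cut of `h` with respect to its action on `X` -/
def ct (D X : Subgroup G) (h : G) : Set G := {g | ∃ x ∈ X, h * x * h⁻¹ * x⁻¹ ∉ cj g D}

omit [LinearOrder G] [MulLeftMono G] [MulRightMono G] in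
lemma not_mem_ct {D X : Subgroup G} {h g : G} :
    g ∉ ct D X h ↔ ∀ x ∈ X, h * x * h⁻¹ * x⁻¹ ∈ cj g D := by
  unfold ct
  simp only [Set.mem_setOf_eq, not_exists, not_and, not_not]

omit [LinearOrder G] [MulLeftMono G] [MulRightMono G] in
lemma ct_down (D X : Subgroup G) (h : G) :
    ∀ g g' : G, cj g' D ≤ cj g D → g ∈ ct D X h → g' ∈ ct D X h := by
  rintro g g' hg ⟨x, hx, hxn⟩
  exact ⟨x, hx, fun h' => hxn (hg h')⟩

omit [LinearOrder G] [MulLeftMono G] [MulRightMono G] in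
lemma ct_one (D X : Subgroup G) : ct D X 1 = ∅ := by
  ext g
  simp only [Set.mem_empty_iff_false, iff_false, not_mem_ct]
  intro x _
  simp [Subgroup.one_mem]

omit [LinearOrder G] [MulLeftMono G] [MulRightMono G] in
lemma ct_conj {D X : Subgroup G} (hX : X.Normal) (h g : G) :
    ct D X (g⁻¹ * h * g) = sh (ct D X h) g := by
  ext k
  rw [mem_sh]
  constructor
  · rintro ⟨x, hx, hxn⟩
    refine ⟨g * x * g⁻¹, hX.conj_mem x hx g, fun h' => hxn ?_⟩
    rw [mem_cj] at *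
    rw [← show k * g⁻¹ * (h * (g * x * g⁻¹) * h⁻¹ * (g * x * g⁻¹)⁻¹) * (k * g⁻¹)⁻¹ =
      k * (g⁻¹ * h * g * x * (g⁻¹ * h * g)⁻¹ * x⁻¹) * k⁻¹ by group]
    exact h'
  · rintro ⟨x, hx, hxn⟩
    refine ⟨g⁻¹ * x * g, by simpa using hX.conj_mem x hx g⁻¹, fun h' => hxn ?_⟩
    rw [mem_cj] at *
    rw [show k * g⁻¹ * (h * x * h⁻¹ * x⁻¹) * (k * g⁻¹)⁻¹ =
      k * (g⁻¹ * h * g * (g⁻¹ * x * g) * (g⁻¹ * h * g)⁻¹ * (g⁻¹ * x * g)⁻¹) * k⁻¹ by group]
    exact h'

omit [LinearOrder G] [MulLeftMono G] [MulRightMono G] in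
lemma ct_conj' {D X : Subgroup G} (hX : X.Normal) (h g : G) :
    ct D X (g * h * g⁻¹) = sh (ct D X h) g⁻¹ := by
  have := ct_conj (D := D) hX h g⁻¹
  rwa [inv_inv] at this

namespace Stp

variable {H D : Subgroup G} (S : Stp H D) {X : Subgroup G}
include S

lemma ct_mul {h h' : G} (hh : h ∈ H) : ct D X (h * h') ⊆ ct D X h ∪ ct D X h' := by
  intro g hg
  by_contra hcon
  rw [Set.mem_union, not_or, not_mem_ct, not_mem_ct] at hcon
  refine absurd hg (not_mem_ct.mpr ?_)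
  intro x hx
  have h1 := S.normalize hh (hcon.2 x hx)
  have h2 := (cj g D).mul_mem h1 (hcon.1 x hx)
  rwa [show h * (h' * x * h'⁻¹ * x⁻¹) * h⁻¹ * (h * x * h⁻¹ * x⁻¹) =
    h * h' * x * (h * h')⁻¹ * x⁻¹ by group] at h2

lemma ct_inv {h : G} (hh : h ∈ H) : ct D X h⁻¹ = ct D X h := by
  have key : ∀ h ∈ H, ct D X h⁻¹ ⊆ ct D X h := by
    intro h hh g hg
    by_contra hcon
    rw [not_mem_ct] at hcon
    refine absurd hg (not_mem_ct.mpr ?_)
    intro x hx
    have h1 := S.normalize (H.inv_mem hh) ((cj g D).inv_mem (hcon x hx))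
    rwa [show h⁻¹ * (h * x * h⁻¹ * x⁻¹)⁻¹ * h⁻¹⁻¹ = h⁻¹ * x * h⁻¹⁻¹ * x⁻¹ by group] at h1
  refine Set.Subset.antisymm (key h hh) ?_
  have := key h⁻¹ (H.inv_mem hh)
  rwa [inv_inv] at this

lemma ct_pow {h : G} (hh : h ∈ H) {n : ℕ} (hn : n ≠ 0) : ct D X (h ^ n) = ct D X h := by
  apply Set.Subset.antisymm
  · clear hn
    induction n with
    | zero => rw [pow_zero, ct_one]; exact Set.empty_subset _
    | succ n ih =>
      rw [pow_succ]
      refine (S.ct_mul (H.pow_mem hh n)).trans ?_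
      exact Set.union_subset ih le_rfl
  · obtain ⟨m, rfl⟩ := Nat.exists_eq_succ_of_ne_zero hn
    rintro g ⟨x, hx, hxn⟩
    refine ⟨x, hx, fun h' => hxn ?_⟩
    have hcv : Cvx (cj g D) := cvx_cj S.hDc
    have hid : ∀ m : ℕ, h ^ (m + 1) * x * (h ^ (m + 1))⁻¹ * x⁻¹ =
        (h * (h ^ m * x * (h ^ m)⁻¹ * x⁻¹) * h⁻¹) * (h * x * h⁻¹ * x⁻¹) := by
      intro m
      rw [pow_succ' h m]; group
    rcases le_total 1 (h * x * h⁻¹ * x⁻¹) with h1 | h1
    · have h2 : ∀ m : ℕ, 1 ≤ h ^ m * x * (h ^ m)⁻¹ * x⁻¹ := by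
        intro m
        induction m with
        | zero => simp
        | succ m ih =>
          rw [hid]
          have h3 : h * 1 * h⁻¹ ≤ h * (h ^ m * x * (h ^ m)⁻¹ * x⁻¹) * h⁻¹ :=
            mul_le_mul_left (mul_le_mul_right ih h) h⁻¹
          rw [mul_one, mul_inv_cancel] at h3
          calc (1 : G) = 1 * 1 := (one_mul 1).symm
            _ ≤ _ := mul_le_mul' h3 h1
      refine hcv _ _ h1 ?_ h'
      show _ ≤ h ^ (m + 1) * x * (h ^ (m + 1))⁻¹ * x⁻¹
      rw [hid]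
      have h3 : h * 1 * h⁻¹ ≤ h * (h ^ m * x * (h ^ m)⁻¹ * x⁻¹) * h⁻¹ :=
        mul_le_mul_left (mul_le_mul_right (h2 m) h) h⁻¹
      rw [mul_one, mul_inv_cancel] at h3
      exact le_mul_of_one_le_left' h3
    · have h2 : ∀ m : ℕ, h ^ m * x * (h ^ m)⁻¹ * x⁻¹ ≤ 1 := by
        intro m
        induction m with
        | zero => simp
        | succ m ih =>
          rw [hid]
          have h3 : h * (h ^ m * x * (h ^ m)⁻¹ * x⁻¹) * h⁻¹ ≤ h * 1 * h⁻¹ :=
            mul_le_mul_left (mul_le_mul_right ih h) h⁻¹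
          rw [mul_one, mul_inv_cancel] at h3
          calc _ ≤ (1 : G) * 1 := mul_le_mul' h3 h1
            _ = 1 := one_mul 1
      have h4 : (h * x * h⁻¹ * x⁻¹)⁻¹ ∈ cj g D := by
        refine hcv _ ((h ^ (m + 1) * x * (h ^ (m + 1))⁻¹ * x⁻¹)⁻¹) (one_le_inv'.mpr h1) ?_
          ((cj g D).inv_mem h')
        rw [inv_le_inv_iff, hid]
        have h3 : h * (h ^ m * x * (h ^ m)⁻¹ * x⁻¹) * h⁻¹ ≤ h * 1 * h⁻¹ :=
          mul_le_mul_left (mul_le_mul_right (h2 m) h) h⁻¹
        rw [mul_one, mul_inv_cancel] at h3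
        exact mul_le_of_le_one_left' h3
      simpa using (cj g D).inv_mem h4

lemma ct_empty {h : G} : ct D X h = ∅ ↔ ∀ x ∈ X, h * x = x * h := by
  constructor
  · intro hc x hx
    have h1 : h * x * h⁻¹ * x⁻¹ = 1 := by
      apply S.hI
      intro g
      have : g ∉ ct D X h := by rw [hc]; exact Set.notMem_empty g
      exact not_mem_ct.mp this x hx
    calc h * x = (h * x * h⁻¹ * x⁻¹) * (x * h) := by group
      _ = x * h := by rw [h1, one_mul]
  · intro hc
    ext g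
    simp only [Set.mem_empty_iff_false, iff_false, not_mem_ct]
    intro x hx
    rw [hc x hx]
    simp [Subgroup.one_mem]

lemma ct_isCut (hXH : X ≤ H) {h : G} (hh : h ∈ H) (hne : ct D X h ≠ ∅) :
    IsCut D (ct D X h) where
  down := ct_down D X h
  ne := Set.nonempty_iff_ne_empty.mpr hne
  nu := by
    obtain ⟨g, hg⟩ := S.hU h hh
    refine ⟨g, not_mem_ct.mpr ?_⟩
    intro x hx
    have h1 := S.normalize (hXH hx) ((cj g D).inv_mem hg)
    have h2 := (cj g D).mul_mem hg h1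
    rwa [show h * (x * h⁻¹ * x⁻¹) = h * x * h⁻¹ * x⁻¹ by group] at h2

lemma ct_total (h h' : G) : ct D X h ⊆ ct D X h' ∨ ct D X h' ⊆ ct D X h :=
  down_total S.hDc (ct_down D X h) (ct_down D X h')

lemma ct_mul_eq {h h' : G} (hh : h ∈ H) (hh' : h' ∈ H) (hlt : ct D X h ⊂ ct D X h') :
    ct D X (h * h') = ct D X h' ∧ ct D X (h' * h) = ct D X h' := by
  have key : ∀ k ∈ H, ct D X k ⊆ ct D X h' → ct D X h' ⊆ ct D X h ∪ ct D X k →
      ct D X k = ct D X h' := by
    intro k hk h1 h2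
    rcases S.ct_total h k with h3 | h3
    · rw [Set.union_eq_self_of_subset_left h3] at h2
      exact Set.Subset.antisymm h1 h2
    · rw [Set.union_eq_self_of_subset_right h3] at h2
      exact absurd h2 hlt.not_subset
  constructor
  · apply key _ (H.mul_mem hh hh')
    · exact (S.ct_mul hh).trans (Set.union_subset hlt.subset le_rfl)
    · have := S.ct_mul (X := X) (h := h⁻¹) (h' := h * h') (H.inv_mem hh)
      rwa [inv_mul_cancel_left, S.ct_inv hh] at this
  · apply key _ (H.mul_mem hh' hh)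
    · exact (S.ct_mul hh').trans (Set.union_subset le_rfl hlt.subset)
    · have := S.ct_mul (X := X) (h := h' * h) (h' := h⁻¹) (H.mul_mem hh' hh)
      rwa [mul_inv_cancel_right, S.ct_inv hh, Set.union_comm] at this

end Stp

end Pool.Agent.R842.Orb
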